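import Pool.Agent.H.MP_677f70_an.A

set_option autoImplicit false

namespace Pool.Agent.Results.MP_c418e9_an.No

open Set Real Filter Topology InnerProductSpace Pool.Agent.H.MP_677f70_an

/-- Classical Dirichlet eigenfunction of minus the Laplacian on the open set U, eigenvalue l. -/
def IsEig {N : ℕ} (U : Set (EuclideanSpace ℝ (Fin N))) (l : ℝ)
    (f : EuclideanSpace ℝ (Fin N) → ℝ) : Prop :=
  ContinuousOn f (closure U) ∧ ContDiffOn ℝ 2 f U ∧ (∀ x ∈ U, -Laplacian.laplacian f x = l * f x) ∧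
    (∀ x ∈ frontier U, f x = 0) ∧ ∃ x ∈ U, f x ≠ 0

abbrev E := EuclideanSpace ℝ (Fin 2)

noncomputable def S (c p q : ℝ) (x : E) : ℝ := sin (c + p * x 0 + q * x 1)

theorem S_cd (c p q : ℝ) : ContDiff ℝ 2 (S c p q) := by
  unfold S
  fun_prop

theorem lin (c p q : ℝ) (x : E) : HasFDerivAt (fun x : E => c + p * x 0 + q * x 1)
    (p • EuclideanSpace.proj (𝕜 := ℝ) (0 : Fin 2) + q • EuclideanSpace.proj (𝕜 := ℝ) (1 : Fin 2)) x :=
  (((EuclideanSpace.proj (𝕜 := ℝ) (0 : Fin 2)).hasFDerivAt.const_mul p).const_add c).add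
    ((EuclideanSpace.proj (𝕜 := ℝ) (1 : Fin 2)).hasFDerivAt.const_mul q)

theorem S_lap (c p q : ℝ) (x : E) :
    Laplacian.laplacian (S c p q) x = -(p ^ 2 + q ^ 2) * S c p q x := by
  have k : ∀ v : E, iteratedFDeriv ℝ 2 (S c p q) x ![v, v] = -(p * v 0 + q * v 1) ^ 2 * S c p q x := by
    intro v
    rw [iter (S_cd c p q).contDiffAt]
    have e : (fun w => fderiv ℝ (S c p q) w v) =
        fun w : E => cos (c + p * w 0 + q * w 1) * (p * v 0 + q * v 1) := by
      funext w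
      rw [show fderiv ℝ (S c p q) w = _ from (lin c p q w).sin.fderiv]
      simp [mul_add]
    rw [e, ((lin c p q x).cos.mul_const _).fderiv]
    simp [S]
    ring
  rw [laplacian_eq_iteratedFDeriv_orthonormalBasis _ (EuclideanSpace.basisFun (Fin 2) ℝ)]
  simp only [Fin.sum_univ_two, k]
  simp
  ring

noncomputable def F (r : ℝ) : E → ℝ := (2 / (3 * √3) : ℝ) •
  (S (2 * π / 3) (4 * r) 0 + S (2 * π / 3) (-2 * r) (2 * √3 * r) +
    S (2 * π / 3) (-2 * r) (-2 * √3 * r))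

theorem S2_cd (c p q c' p' q' : ℝ) : ContDiff ℝ 2 (S c p q + S c' p' q') :=
  (S_cd _ _ _).add (S_cd _ _ _)

theorem S3_cd (c p q c' p' q' a b d : ℝ) : ContDiff ℝ 2 (S c p q + S c' p' q' + S a b d) :=
  (S2_cd ..).add (S_cd _ _ _)

theorem F_cd (r : ℝ) : ContDiff ℝ 2 (F r) := (S3_cd ..).const_smul (2 / (3 * √3) : ℝ)

theorem F_lap (r : ℝ) (x : E) : Laplacian.laplacian (F r) x = -(16 * r ^ 2) * F r x := by
  have h3 : √3 ^ 2 = 3 := sq_sqrt (by norm_num)
  unfold F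
  rw [laplacian_smul _ (S3_cd ..).contDiffAt,
    ContDiffAt.laplacian_add (S2_cd ..).contDiffAt (S_cd _ _ _).contDiffAt,
    ContDiffAt.laplacian_add (S_cd _ _ _).contDiffAt (S_cd _ _ _).contDiffAt, S_lap, S_lap, S_lap]
  simp only [mul_pow, h3, Pi.smul_apply, Pi.add_apply, smul_eq_mul]
  ring

theorem F_prod (r : ℝ) (x : E) : F r x = 8 / (3 * √3) * (sin (π / 3 + 2 * (r * x 0)) *
    sin (π / 3 - r * x 0 + √3 * (r * x 1)) * sin (π / 3 - r * x 0 - √3 * (r * x 1))) := by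
  have k : ∀ a b : ℝ, sin (2 * a) + sin (2 * b) + sin (2 * (π - (a + b))) =
      4 * (sin a * sin b * sin (π - (a + b))) := fun a b => by
    rw [sin_two_mul, sin_two_mul, sin_two_mul, sin_pi_sub, cos_pi_sub, sin_add, cos_add]
    linear_combination (-2 * sin b * cos b) * sin_sq_add_cos_sq a -
      (2 * sin a * cos a) * sin_sq_add_cos_sq b
  have := k (π / 3 + 2 * (r * x 0)) (π / 3 - r * x 0 + √3 * (r * x 1))
  rw [show π - (π / 3 + 2 * (r * x 0) + (π / 3 - r * x 0 + √3 * (r * x 1))) =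
    π / 3 - r * x 0 - √3 * (r * x 1) by ring] at this
  rw [show 8 / (3 * √3) = 2 / (3 * √3) * 4 by ring, mul_assoc, ← this]
  simp only [F, S, Pi.smul_apply, Pi.add_apply, smul_eq_mul]
  congr 3
  · congr 1; ring
  · congr 1; ring
  · ring

def T : Set E :=
  {x | 0 < π / 3 + 2 * x 0 ∧ 0 < π / 3 - x 0 + √3 * x 1 ∧ 0 < π / 3 - x 0 - √3 * x 1}

theorem T_open : IsOpen T := by
  refine IsOpen.and ?_ (IsOpen.and ?_ ?_) <;> exact isOpen_lt (by fun_prop) (by fun_prop)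

theorem T_cl {x : E} (h : x ∈ closure T) :
    0 ≤ π / 3 + 2 * x 0 ∧ 0 ≤ π / 3 - x 0 + √3 * x 1 ∧ 0 ≤ π / 3 - x 0 - √3 * x 1 :=
  closure_minimal (t := {x : E | 0 ≤ π / 3 + 2 * x 0 ∧ 0 ≤ π / 3 - x 0 + √3 * x 1 ∧
    0 ≤ π / 3 - x 0 - √3 * x 1}) (fun _ h => ⟨h.1.le, h.2.1.le, h.2.2.le⟩)
    (by refine IsClosed.and ?_ (IsClosed.and ?_ ?_) <;>
      exact isClosed_le (by fun_prop) (by fun_prop)) h

theorem T_conv : Convex ℝ T := by
  intro x hx y hy a b ha hb hab
  have k : ∀ u v : ℝ, 0 < u → 0 < v → 0 < a * u + b * v := fun u v hu hv => by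
    rcases ha.eq_or_lt with h | h
    · rw [← h, show b = 1 by linarith]; linarith
    · positivity
  have e : π / 3 = a * (π / 3) + b * (π / 3) := by rw [← add_mul, hab, one_mul]
  refine ⟨?_, ?_, ?_⟩ <;> simp only [PiLp.add_apply, PiLp.smul_apply, smul_eq_mul]
  · linarith [k _ _ hx.1 hy.1]
  · linarith [k _ _ hx.2.1 hy.2.1]
  · linarith [k _ _ hx.2.2 hy.2.2]

theorem T_bdd : Bornology.IsBounded T := by
  refine (Metric.isBounded_closedBall (x := 0) (r := 4)).subset fun x ⟨h1, h2, h3⟩ => ?_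
  have h3' : √3 ^ 2 = 3 := sq_sqrt (by norm_num)
  rw [mem_closedBall_zero_iff, EuclideanSpace.norm_eq, sqrt_le_iff]
  simp only [Fin.sum_univ_two, norm_eq_abs, sq_abs]
  have := pi_le_four
  have a1 : x 0 ^ 2 ≤ 2 ^ 2 := sq_le_sq' (by linarith) (by linarith)
  have a2 : (√3 * x 1) ^ 2 ≤ 2 ^ 2 := sq_le_sq' (by linarith) (by linarith)
  rw [mul_pow, h3'] at a2
  constructor <;> linarith

theorem F_pos (r : ℝ) {x : E} (h1 : 0 < π / 3 + 2 * (r * x 0))
    (h2 : 0 < π / 3 - r * x 0 + √3 * (r * x 1)) (h3 : 0 < π / 3 - r * x 0 - √3 * (r * x 1)) :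
    0 < F r x := by
  rw [F_prod]
  have := sin_pos_of_pos_of_lt_pi h1 (by linarith)
  have := sin_pos_of_pos_of_lt_pi h2 (by linarith)
  have := sin_pos_of_pos_of_lt_pi h3 (by linarith)
  positivity

theorem F1_pos {x : E} (h : x ∈ T) : 0 < F 1 x :=
  F_pos 1 (by simpa using h.1) (by simpa using h.2.1) (by simpa using h.2.2)

theorem F_eig : IsEig T 16 (F 1) := by
  refine ⟨(F_cd 1).continuous.continuousOn, (F_cd 1).contDiffOn, fun x _ => by rw [F_lap]; ring,
    fun x hx => ?_, 0, by simp [T, pi_pos], (F1_pos (by simp [T, pi_pos])).ne'⟩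
  rw [T_open.frontier_eq] at hx
  obtain ⟨a, b, c⟩ := T_cl hx.1
  rw [F_prod]
  simp only [one_mul]
  rcases a.eq_or_lt with a | a
  · rw [← a]; simp
  rcases b.eq_or_lt with b | b
  · rw [← b]; simp
  rcases c.eq_or_lt with c | c
  · rw [← c]; simp
  exact (hx.2 ⟨a, b, c⟩).elim

theorem low0 {l : ℝ} {f : E → ℝ} (h1 : ContinuousOn f (closure T)) (h2 : ContDiffOn ℝ 2 f T)
    (h3 : ∀ x ∈ T, -Laplacian.laplacian f x = l * f x) (h4 : ∀ x ∈ frontier T, f x = 0)
    {y : E} (hy : y ∈ T) (hf : 0 < f y) {r : ℝ} (r0 : 0 < r) (r1 : r < 1) : 16 * r ^ 2 ≤ l := by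
  have hp : ∀ x ∈ closure T, 0 < F r x := fun x hx => by
    obtain ⟨a, b, c⟩ := T_cl hx
    have := mul_pos (sub_pos.2 r1) pi_pos
    exact F_pos r (by nlinarith) (by nlinarith) (by nlinarith)
  obtain ⟨z, hz, hm⟩ := T_bdd.isCompact_closure.exists_isMaxOn ⟨y, subset_closure hy⟩
    (h1.div (F_cd r).continuous.continuousOn fun x hx => (hp x hx).ne')
  set m := f z / F r z with hmd
  have m0 : 0 < m := (div_pos hf (hp y (subset_closure hy))).trans_le (hm (subset_closure hy))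
  have e : f z = m * F r z := (div_mul_cancel₀ _ (hp z hz).ne').symm
  have fz : 0 < f z := e ▸ mul_pos m0 (hp z hz)
  have zT : z ∈ T := by
    by_contra c
    exact fz.ne' (h4 z (T_open.frontier_eq ▸ ⟨hz, c⟩))
  have c1 := h2.contDiffAt (T_open.mem_nhds zT)
  have c2 : ContDiffAt ℝ 2 (m • F r) z := (F_cd r).contDiffAt.const_smul m
  have := locmax (u := f - m • F r) (c1.sub c2) (by
    filter_upwards [T_open.mem_nhds zT] with x hx
    have : f x ≤ m * F r x := (div_le_iff₀ (hp x (subset_closure hx))).1 (hm (subset_closure hx))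
    simp only [Pi.sub_apply, Pi.smul_apply, smul_eq_mul]
    linarith)
  rw [c1.laplacian_sub c2, laplacian_smul _ (F_cd r).contDiffAt, F_lap, smul_eq_mul] at this
  have a := h3 z zT
  refine le_of_mul_le_mul_right ?_ fz
  nlinarith

theorem low {l : ℝ} {f : E → ℝ} (h : IsEig T l f) : 16 ≤ l := by
  obtain ⟨h1, h2, h3, h4, y, hy, hf⟩ := h
  have k : ∀ r : ℝ, 0 < r → r < 1 → 16 * r ^ 2 ≤ l := fun r r0 r1 => by
    rcases hf.lt_or_gt with c | c
    · refine low0 (f := -f) h1.neg h2.neg (fun x hx => ?_) (fun x hx => by simp [h4 x hx]) hy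
        (by simpa) r0 r1
      rw [laplacian_neg]
      simp only [Pi.neg_apply]
      linarith [h3 x hx]
    · exact low0 h1 h2 h3 h4 hy c r0 r1
  have t : Tendsto (fun r : ℝ => 16 * r ^ 2) (𝓝[<] 1) (𝓝 (16 * 1 ^ 2)) :=
    tendsto_nhdsWithin_of_tendsto_nhds (Continuous.tendsto (by fun_prop) 1)
  simpa using le_of_tendsto t (by
    filter_upwards [Ioo_mem_nhdsLT (zero_lt_one' ℝ)] with r hr using k r hr.1 hr.2)

theorem F_le {x : E} (h : x ∈ T) : F 1 x ≤ 1 := by
  obtain ⟨h1, h2, h3⟩ := h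
  have s3 : √3 ^ 2 = 3 := sq_sqrt (by norm_num)
  have s0 : 0 < √3 := by positivity
  rw [F_prod, div_mul_eq_mul_div, div_le_one (by positivity)]
  simp only [one_mul]
  set a := π / 3 + 2 * x 0
  set b := π / 3 - x 0 + √3 * x 1
  set c := π / 3 - x 0 - √3 * x 1
  have hc : 0 < sin c := sin_pos_of_pos_of_lt_pi h3 (by simp only [a, b, c] at *; linarith)
  have e : cos c = -cos (a + b) := by
    rw [← cos_pi_sub]; congr 1; simp only [a, b, c]; ring
  have k : 2 * (sin a * sin b) ≤ 1 + cos c := by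
    have := cos_le_one (a - b)
    rw [e, cos_add]; rw [cos_sub] at this; linarith
  have k2 : √3 * ((1 + cos c) * sin c) ≤ 9 / 4 := by
    nlinarith [sq_nonneg (√3 * sin c - (1 + cos c)), sq_nonneg (cos c - 1 / 2), sin_sq_add_cos_sq c]
  refine le_of_mul_le_mul_left ?_ s0
  nlinarith [mul_le_mul_of_nonneg_left (mul_le_mul_of_nonneg_right k hc.le) s0.le]

/-- On an equilateral triangle the positive first Dirichlet eigenfunction with maximum 1 is not
half-log-concave. -/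
theorem result : ∃ (U : Set (EuclideanSpace ℝ (Fin 2))) (l : ℝ) (f : EuclideanSpace ℝ (Fin 2) → ℝ),
    IsOpen U ∧ U.Nonempty ∧ Convex ℝ U ∧ Bornology.IsBounded U ∧
    IsLeast {m : ℝ | ∃ g, IsEig U m g} l ∧ IsEig U l f ∧ (∀ x ∈ U, 0 < f x ∧ f x ≤ 1) ∧
    ¬ConvexOn ℝ U fun x => √(-log (f x)) := by
  have z0 : (0 : E) ∈ T := by simp [T, pi_pos]
  refine ⟨T, 16, F 1, T_open, ⟨0, z0⟩, T_conv, T_bdd, ⟨⟨_, F_eig⟩, fun m ⟨g, hg⟩ => low hg⟩, F_eig,
    fun x hx => ⟨F1_pos hx, F_le hx⟩, fun h => ?_⟩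
  let y : E := !₂[π / 12, 0]
  have yT : y ∈ T := by
    refine ⟨?_, ?_, ?_⟩ <;> simp [y] <;> linarith [pi_pos]
  have k := h.2 z0 yT (show (0 : ℝ) ≤ 1 / 2 by norm_num) (show (0 : ℝ) ≤ 1 / 2 by norm_num)
    (by norm_num)
  have s3 : √3 ^ 2 = 3 := sq_sqrt (by norm_num)
  have s2 : √2 ^ 2 = 2 := sq_sqrt (by norm_num)
  have s0 : 0 < √3 := by positivity
  have e0 : F 1 0 = 1 := by
    rw [F_prod]
    simp only [PiLp.zero_apply, mul_zero, add_zero, sub_zero, sin_pi_div_three]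
    field_simp
    nlinarith
  have e1 : F 1 y = 4 / (3 * √3) := by
    rw [F_prod]
    simp only [y, one_mul, Matrix.cons_val_zero, Matrix.cons_val_one, mul_zero, add_zero, sub_zero]
    rw [show π / 3 + 2 * (π / 12) = π / 2 by ring, show π / 3 - π / 12 = π / 4 by ring,
      sin_pi_div_two, sin_pi_div_four]
    field_simp
    nlinarith
  have e2 : F 1 ((1 / 2 : ℝ) • (0 : E) + (1 / 2 : ℝ) • y) = (1 + √2 * √3 + √2) / (3 * √3) := by
    simp only [F, S, y, Pi.smul_apply, Pi.add_apply, smul_eq_mul, PiLp.add_apply, PiLp.smul_apply,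
      PiLp.zero_apply, Matrix.cons_val_zero, Matrix.cons_val_one, mul_zero, add_zero, zero_add]
    rw [show 2 * π / 3 + 4 * 1 * (1 / 2 * (π / 12)) = π - π / 6 by ring,
      show 2 * π / 3 + -2 * 1 * (1 / 2 * (π / 12)) = π / 3 + π / 4 by ring, sin_pi_sub, sin_add,
      sin_pi_div_six, sin_pi_div_four, cos_pi_div_four, sin_pi_div_three, cos_pi_div_three]
    field_simp
    ring
  simp only [e0, e1, e2, log_one, neg_zero, sqrt_zero, smul_eq_mul, mul_zero, zero_add] at k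
  have a3 : √3 < 1.73206 := sqrt_lt' (by norm_num) |>.2 (by norm_num)
  have b3 : 1.73205 < √3 := lt_sqrt (by norm_num) |>.2 (by norm_num)
  have a2 : √2 < 1.41422 := sqrt_lt' (by norm_num) |>.2 (by norm_num)
  have p0 : 0 < (1 + √2 * √3 + √2) / (3 * √3) := by positivity
  have p1 : (1 + √2 * √3 + √2) / (3 * √3) < 0.9361 := by
    rw [div_lt_iff₀ (by positivity)]
    nlinarith [mul_lt_mul'' a2 a3 (by positivity) s0.le]
  have q1 : 0.769 < 4 / (3 * √3) := by
    rw [lt_div_iff₀ (by positivity)]; linarith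
  have q2 : 4 / (3 * √3) < 1 := by
    rw [div_lt_one (by positivity)]; linarith
  have l1 : 4 * log ((1 + √2 * √3 + √2) / (3 * √3)) < log (4 / (3 * √3)) := by
    have := log_pow ((1 + √2 * √3 + √2) / (3 * √3)) 4
    rw [Nat.cast_ofNat] at this
    rw [← this]
    refine log_lt_log (by positivity) ((pow_lt_pow_left₀ p1 p0.le (by norm_num)).trans ?_)
    linarith [show (0.9361 : ℝ) ^ 4 < 0.769 by norm_num]
  have l2 := log_neg (by positivity) q2
  have := pow_le_pow_left₀ (sqrt_nonneg _) k 2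
  rw [mul_pow, sq_sqrt (by linarith), sq_sqrt (by linarith)] at this
  linarith

end Pool.Agent.Results.MP_c418e9_an.No
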